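import Pool.Agent.H45.SHA.Stmts

/-!
# ABY: the number of abc triples by radical, all heights: statements of the count

Proofs in words: `/team-store/ABY_PLAN_helper10.md`.  Module `XXX` is a theorem
`xxx_thm (h1 : S_AAA) ... : S_XXX` in `Pool/Agent/H<k>/ABY/XXX.lean` (import this file,
namespace `Pool.ABY`).
-/

set_option autoImplicit false

namespace Pool.ABY

open Finset Pool.Agent.H98.ABCR Pool.SHA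

/-- one of the three radicals is at most `Y` -/
def SmallY (Y : ℝ) (v : ℕ × ℕ) : Prop := ∃ k, (rad (coord v k) : ℝ) ≤ Y

/-- all primes of the two coordinates other than `i` are in `K` or equal to `r`, which divides one
of these two coordinates -/
def Free1 (K : Finset ℕ) (i : Fin 3) (r : ℕ) (v : ℕ × ℕ) : Prop :=
  (∃ s, s ≠ i ∧ r ∣ coord v s) ∧ ∀ s, s ≠ i → ∀ q ∈ (coord v s).primeFactors, q ∈ K ∨ q = r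

/-- `r` occurs as the free prime of a triple of height about `h0` whose known primes are `K` -/
def Occ (X h0 δ : ℝ) (K : Finset ℕ) (i : Fin 3) (r : ℕ) : Prop :=
  r.Prime ∧ r ∉ K ∧ ∃ v : ℕ × ℕ, IsTri v ∧ (RR v : ℝ) ≤ X ∧ h0 ≤ hh v ∧ hh v ≤ 2 * h0 ∧
    K ⊆ (nn v).primeFactors ∧ δ * h0 ≤ kl K (coord v i) ∧ Free1 K i r v

/-- STAR LEMMA: the free prime takes few values (large heights) -/
def S_STAR : Prop := ∀ δ ε : ℝ, 0 < δ → 0 < ε → ∃ B X0 : ℝ, 1 ≤ B ∧ 3 ≤ X0 ∧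
  ∀ (X h0 : ℝ) (K : Finset ℕ) (i : Fin 3) (Q : Finset ℕ), X0 ≤ X → Real.log X ^ B ≤ h0 →
    (∀ r ∈ Q, Occ X h0 δ K i r) → (Q.card : ℝ) ≤ X ^ ε

/-- the free prime takes few values (all heights `≥ c (log X) ^ 2`) -/
def S_ONR : Prop := ∀ δ ε c : ℝ, 0 < δ → 0 < ε → 0 < c → ∃ X0 : ℝ, 3 ≤ X0 ∧
  ∀ (X h0 : ℝ) (K : Finset ℕ) (i : Fin 3) (Q : Finset ℕ), X0 ≤ X → c * Real.log X ^ 2 ≤ h0 →
    (∀ r ∈ Q, Occ X h0 δ K i r) → (Q.card : ℝ) ≤ X ^ ε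

/-- the gap principle in one dyadic range -/
def S_GPD : Prop := ∀ δ : ℝ, 0 < δ → δ ≤ 1 → ∃ C : ℝ, 1 ≤ C ∧
  ∀ (h0 : ℝ) (K : Finset ℕ) (F : Finset (ℕ × ℕ)), 0 < h0 → (∀ q ∈ K, q.Prime) →
  (∀ v ∈ F, IsTri v ∧ h0 ≤ hh v ∧ hh v ≤ 2 * h0 ∧ (2 + δ) * hh v ≤ mass K v) →
  (F.card : ℝ) ≤ C ^ (K.card + 1)

/-- the choice of the known primes -/
def S_KNY : Prop := ∀ ε : ℝ, 0 < ε → ε ≤ 1 → ∃ δ : ℝ, 0 < δ ∧ δ ≤ 1 ∧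
  ∀ (X Y : ℝ) (v : ℕ × ℕ), 3 ≤ X → 1 ≤ Y → IsTri v → (RR v : ℝ) ≤ X → SmallY Y v →
    1 / δ ≤ hh v → ∃ K ⊆ (nn v).primeFactors,
      ((∏ q ∈ K, q : ℕ) : ℝ) ≤ X ^ ε * Real.sqrt (X * Y) ∧
      ((2 + δ) * hh v ≤ mass K v ∨
        ∃ (i : Fin 3) (r : ℕ), r ∈ (nn v).primeFactors ∧ r ∉ K ∧
          δ * hh v ≤ kl K (coord v i) ∧ Free1 K i r v ∧ (2 + δ) * hh v ≤ mass (insert r K) v)

/-- triples of small height -/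
def S_TRY : Prop := ∃ C : ℝ, 1 ≤ C ∧ ∀ (X Y h : ℝ) (F : Finset (ℕ × ℕ)), 1 ≤ X → 1 ≤ Y → 1 ≤ h →
  (∀ v ∈ F, IsTri v ∧ (RR v : ℝ) ≤ X ∧ SmallY Y v ∧ hh v ≤ h) →
  (F.card : ℝ) ≤ 6 * Real.sqrt (X * Y) * Real.exp (C * Real.sqrt h)

/-- triples in one dyadic range of heights -/
def S_DYA : Prop := ∀ ε : ℝ, 0 < ε → ∃ C : ℝ, 1 ≤ C ∧ ∀ (X Y h0 : ℝ) (F : Finset (ℕ × ℕ)),
  1 ≤ X → 1 ≤ Y → 0 < h0 →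
  (∀ v ∈ F, IsTri v ∧ (RR v : ℝ) ≤ X ∧ SmallY Y v ∧ h0 ≤ hh v ∧ hh v ≤ 2 * h0) →
  (F.card : ℝ) ≤ C * X ^ ε * Real.sqrt (X * Y)

/-- MAIN THEOREM with the factor `1 + log H` -/
def S_MAY : Prop := ∀ ε : ℝ, 0 < ε → ∃ C : ℝ, 1 ≤ C ∧ ∀ (X Y H : ℝ) (F : Finset (ℕ × ℕ)),
  1 ≤ X → 1 ≤ Y → 1 ≤ H →
  (∀ v ∈ F, IsTri v ∧ (RR v : ℝ) ≤ X ∧ SmallY Y v ∧ hh v ≤ H) →
  (F.card : ℝ) ≤ C * X ^ ε * Real.sqrt (X * Y) * (1 + Real.log H)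

/-- an effective bound for the height (helper21) -/
def S_EHB : Prop := ∃ C : ℝ, 1 ≤ C ∧ ∀ v : ℕ × ℕ, IsTri v →
  hh v ≤ Real.exp (C * (1 + Real.log (RR v)) ^ 2)

/-- MAIN THEOREM, all heights -/
def S_ALL : Prop := ∀ ε : ℝ, 0 < ε → ∃ C : ℝ, 1 ≤ C ∧ ∀ (X Y : ℝ) (F : Finset (ℕ × ℕ)),
  1 ≤ X → 1 ≤ Y → (∀ v ∈ F, IsTri v ∧ (RR v : ℝ) ≤ X ∧ SmallY Y v) →
  (F.card : ℝ) ≤ C * X ^ ε * Real.sqrt (X * Y)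

end Pool.ABY
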