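import Pool.Agent.H10.ABY.Cnt
import Pool.Agent.H10.ALLH.PADE
import Pool.Agent.H10.ALLH.ZER
import Pool.Agent.H12.ALLH.IDN
import Pool.Agent.H21.EHB.EHB
import Pool.Agent.H85.ALLH.ALG
import Pool.Agent.H85.ALLH.PIG

set_option autoImplicit false

namespace Pool.ABY

open Pool.Agent.H98.ABCR Pool.SHA Pool.ALLH

/-- the star lemma -/
theorem star_all : S_STAR := all_STAR pade_thm10 zer_thm10 (alg_thm pig_thm idn_thm)

/-- the main theorem, all heights -/
theorem all_ALL : S_ALL := all_thm (all_MAY star_all) ehb_thm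

end Pool.ABY
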