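import Pool.Agent.H10.ABY.Stmts
import Pool.Agent.H10.FEX.FI3

set_option autoImplicit false

namespace Pool.ABY

open Finset Pool.Agent.H98.ABCR Pool.SHA

/-- the abc triples `(a, b, a + b)` of radical at most `X` -/
def TriA (X : ℝ) : Set (ℕ × ℕ) :=
  {t | 0 < t.1 ∧ 0 < t.2 ∧ Nat.Coprime t.1 t.2 ∧
    ((∏ p ∈ (t.1 * t.2 * (t.1 + t.2)).primeFactors, p : ℕ) : ℝ) ≤ X}

/-- those with one of the three radicals at most `Y` -/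
def TriAY (X Y : ℝ) : Set (ℕ × ℕ) :=
  {t | t ∈ TriA X ∧ (((∏ p ∈ t.1.primeFactors, p : ℕ) : ℝ) ≤ Y ∨
    ((∏ p ∈ t.2.primeFactors, p : ℕ) : ℝ) ≤ Y ∨ ((∏ p ∈ (t.1 + t.2).primeFactors, p : ℕ) : ℝ) ≤ Y)}

theorem triAY_sub (X Y : ℝ) : TriAY X Y ⊆ TriA X := fun _ ht => ht.1

theorem triA_sub (X : ℝ) (hX : 0 < X) : TriA X ⊆ TriAY X (X ^ (1 / 3 : ℝ)) := by
  intro t ht
  refine ⟨ht, ?_⟩
  obtain ⟨p1, p2, p3, p4⟩ := ht
  have e1 := Pool.FEX.rad_mul3' t ⟨p1, p2, p3⟩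
  have e2 : ((rad (nn t) : ℕ) : ℝ) ≤ X := p4
  rw [e1] at e2
  have e3 : ((rad (coord t 0) * rad (coord t 1) * rad (coord t 2) : ℕ) : ℝ) =
      (rad t.1 : ℝ) * (rad t.2 : ℝ) * (rad (t.1 + t.2) : ℝ) := by
    push_cast
    rfl
  rw [e3] at e2
  exact Pool.FEX.one_small X _ _ _ hX e2

/-- a set all of whose finite subsets have at most `B` elements -/
theorem finite_of_bound (S : Set (ℕ × ℕ)) (B : ℝ)
    (h : ∀ F : Finset (ℕ × ℕ), (F : Set (ℕ × ℕ)) ⊆ S → (F.card : ℝ) ≤ B) :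
    S.Finite ∧ (S.ncard : ℝ) ≤ B := by
  have hfin : S.Finite := by
    by_contra hinf
    obtain ⟨F, hF, hc⟩ := Set.Infinite.exists_subset_card_eq (Set.not_finite.mp hinf : S.Infinite) (⌊B⌋₊ + 1)
    have h1 := h F hF
    rw [hc] at h1
    have h2 := Nat.lt_floor_add_one B
    push_cast at h1
    linarith
  refine ⟨hfin, ?_⟩
  have h1 := h hfin.toFinset (by rw [Set.Finite.coe_toFinset])
  rwa [← Set.ncard_eq_toFinset_card _ hfin] at h1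

/-- The final statement. -/
theorem fin (hA : S_ALL) (hL : Pool.FEX.S_LO2) :
    (∀ ε : ℝ, 0 < ε → ∃ C : ℝ, ∀ X : ℝ, 1 ≤ X → (TriA X).Finite ∧
      ((TriA X).ncard : ℝ) ≤ C * X ^ (2 / 3 + ε) ∧
      ∀ Y : ℝ, 1 ≤ Y → ((TriAY X Y).ncard : ℝ) ≤ C * X ^ (1 / 2 + ε) * Y ^ (1 / 2 : ℝ)) ∧
    ∃ c X₀ : ℝ, 0 < c ∧ ∀ X Y : ℝ, X₀ ≤ X → 1 ≤ Y → Y ≤ X ^ (1 / 3 : ℝ) →
      c * (X * Y) ^ (1 / 2 : ℝ) ≤ ((TriAY X Y).ncard : ℝ) := by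
  classical
  have key : ∀ ε : ℝ, 0 < ε → ∃ C : ℝ, 1 ≤ C ∧ ∀ X Y : ℝ, 1 ≤ X → 1 ≤ Y → (TriAY X Y).Finite ∧
      ((TriAY X Y).ncard : ℝ) ≤ C * X ^ (1 / 2 + ε) * Y ^ (1 / 2 : ℝ) := by
    intro ε hε
    obtain ⟨C, hC, h⟩ := hA ε hε
    refine ⟨C, hC, fun X Y hX hY => ?_⟩
    have hX0 : 0 < X := by linarith
    have hY0 : 0 < Y := by linarith
    have h1 := finite_of_bound (TriAY X Y) (C * X ^ ε * Real.sqrt (X * Y)) (fun F hF =>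
      h X Y F hX hY (fun v hv => by
        obtain ⟨⟨h1, h2, h3, h4⟩, h7⟩ := hF hv
        refine ⟨⟨h1, h2, h3⟩, h4, ?_⟩
        rcases h7 with h7 | h7 | h7
        · exact ⟨0, h7⟩
        · exact ⟨1, h7⟩
        · exact ⟨2, h7⟩))
    refine ⟨h1.1, h1.2.trans (le_of_eq ?_)⟩
    rw [Real.sqrt_eq_rpow, Real.mul_rpow hX0.le hY0.le, Real.rpow_add hX0]
    ring
  constructor
  · intro ε hε
    obtain ⟨C, hC, h⟩ := key ε hε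
    refine ⟨C, fun X hX => ?_⟩
    have hX0 : 0 < X := by linarith
    have hY1 : 1 ≤ X ^ (1 / 3 : ℝ) := Real.one_le_rpow hX (by norm_num)
    have h2 := h X (X ^ (1 / 3 : ℝ)) hX hY1
    have hfin : (TriA X).Finite := h2.1.subset (triA_sub X hX0)
    refine ⟨hfin, ?_, fun Y hY => (h X Y hX hY).2⟩
    have h3 : ((TriA X).ncard : ℝ) ≤ ((TriAY X (X ^ (1 / 3 : ℝ))).ncard : ℝ) := by
      exact_mod_cast Set.ncard_le_ncard (triA_sub X hX0) h2.1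
    refine h3.trans (h2.2.trans (le_of_eq ?_))
    have h4 := Pool.FEX.third X ε hX0 C 1
    rwa [mul_one, mul_one] at h4
  · obtain ⟨c, X0, hc, hX0, hl⟩ := hL
    obtain ⟨C, hC, h⟩ := key 1 one_pos
    refine ⟨c, X0, hc, fun X Y hX hY hYX => ?_⟩
    obtain ⟨F, hF, hv⟩ := hl X Y hX hY hYX
    have h1 : (F : Set (ℕ × ℕ)) ⊆ TriAY X Y := by
      intro v hvF
      obtain ⟨⟨p1, p2, p3⟩, p4, p5, p6, p7⟩ := hv v hvF
      exact ⟨⟨p1, p2, p3, p4⟩, Or.inl p5⟩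
    have h2 : ((F : Set (ℕ × ℕ)).ncard : ℝ) ≤ ((TriAY X Y).ncard : ℝ) := by
      exact_mod_cast Set.ncard_le_ncard h1 (h X Y (by linarith) hY).1
    rw [Set.ncard_coe_finset] at h2
    rw [← Real.sqrt_eq_rpow]
    exact hF.trans h2

end Pool.ABY
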