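import Pool.Agent.H45.SHA.All
import Pool.Agent.H31.ABCR.GCO
import Pool.Agent.H81.ABCR.KNA
import Pool.Agent.H10.ABY.FIN
import Pool.Agent.H13.ABY.DYA
import Pool.Agent.H25.ABY.TRY
import Pool.Agent.H34.ABY.ALL
import Pool.Agent.H34.ALLH.STH
import Pool.Agent.H46.ABY.ONR
import Pool.Agent.H47.ALLH.STAR
import Pool.Agent.H50.ABY.MAY
import Pool.Agent.H52.ALLH.GPR
import Pool.Agent.H52.ALLH.NUM
import Pool.Agent.H59.FEX.LO2
import Pool.Agent.H71.ABY.KNY
import Pool.Agent.H76.ALLH.CEL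
import Pool.Agent.H99.ABY.GPD

set_option autoImplicit false

namespace Pool.ABY

open Pool.Agent.H98.ABCR Pool.SHA Pool.ALLH

/-- the star lemma -/
theorem all_STAR (h1 : S_PADE) (h2 : S_ZER) (h3 : S_ALG) : S_STAR :=
  star_thm (sth_thm h1 h2 h3 gpr_thm num_thm) (cel_thm gco_thm)

/-- few values of the free prime -/
theorem all_ONR (h : S_STAR) : S_ONR := onr_thm h all_TL

/-- one dyadic range -/
theorem all_DYA (h : S_STAR) : S_DYA := dya_thm (kny_thm kna_thm) (all_ONR h) gpd_thm (try_thm srd_thm)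

/-- with the factor `1 + log H` -/
theorem all_MAY (h : S_STAR) : S_MAY := may_thm (all_DYA h)

end Pool.ABY
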